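import Pool.Agent.Q86.EM.Asm3
import Pool.Agent.Q289.LD.Gen

/-!
# The KLS conjecture for log-concave measures of bounded tree-depth, and for their marginals

Let `I` be a rooted forest of height at most `d` and let `μ` be a probability measure on `ℝ^I` with a density
`∏_v F_v(x)` where `F_v ≥ 0` is log-concave and depends only on the coordinates `x_u` of `v` and of its
ancestors `u`. In other words: `μ` is a log-concave Markov random field, with log-concave factors, on a graph
of tree-depth at most `d`. Theorem: `μ` satisfies the KLS inequality, in the form of the frozen statement and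
in the halfspace form, for all measurable sets, with the constant `C^(-d)`, `C` absolute, whatever the number
of coordinates; in the Poincare form also all its marginals on sets of coordinates (hidden variables).

`d = 1` is the case of product measures. For a star, `d = 2`, the coordinates `x_2, ..., x_n` are
independent given `x_1`. With `x_1` hidden: the mixtures `∫ ∏_i F_i(t, x_i) dt` of product measures, for
example the mean field measures `exp(- ∑_i V_i(x_i) - (c / 2n) ∑_{i<j} (x_i - x_j)²)`, `c ≥ 0`, `V_i` any
convex functions, uniformly in `c` and `n`, because the density is the integral over `t` of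
`exp(- ∑_i V_i(x_i) - ∑_i (t / √n - √c x_i)² / 2)`, up to a factor.

Method. Section by section: a two-scale argument over one coordinate (the root), tensorisation over the
branches, induction on the height. The one-coordinate step: the covariances of the conditional measures are at
most `C s min(G, 1 - G)^(-1/4)`, `G` the distribution function of the root coordinate `t`; a field in the
direction `t` is corrected by a field in the other directions, and Hardy's inequality absorbs the derivative
of the conditional means. This bounds the variances of the 1-Lipschitz functions; then E. Milman's theorem, of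
which we give a new proof, without geometric measure theory. Marginals: the class is invariant under
dilations of the coordinates; dilate the hidden ones by `ε → 0`. The passage from Poincare constants to all
measurable sets is Ledoux's, by the heat flow, for arbitrary log-concave densities (`Pool.Agent.Q289.LD`).
-/

set_option autoImplicit false

namespace Pool.Agent.Results.MP_6d896a_gt.BoundedTreeDepthIsoperimetry

open MeasureTheory Set ProbabilityTheory
open scoped ENNReal InnerProductSpace

/-- a rooted forest of height at most `d` (`u ≤ v`: `u = v`, or `u` is an ancestor of `v`): the elements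
`u ≤ v` form a chain of at most `d` elements -/
structure Forest (ι : Type) [Fintype ι] [PartialOrder ι] (d : ℕ) : Prop where
  chain : ∀ v a b : ι, a ≤ v → b ≤ v → a ≤ b ∨ b ≤ a
  height : ∀ v : ι, Nat.card {u : ι // u ≤ v} ≤ d

/-- log-concave factors: `F v ≥ 0` is measurable and log-concave on `ℝ^ι`, and depends only on the
coordinates `x_u`, `u ≤ v` -/
structure Factors {ι : Type} [Fintype ι] [PartialOrder ι] (F : ι → EuclideanSpace ℝ ι → ℝ) :
    Prop where
  nonneg : ∀ v x, 0 ≤ F v x
  measurable : ∀ v, Measurable (F v)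
  logConcave : ∀ v (x y : EuclideanSpace ℝ ι) (r : ℝ), 0 < r → r < 1 →
    F v x ^ (1 - r) * F v y ^ r ≤ F v ((1 - r) • x + r • y)
  branch : ∀ v (x y : EuclideanSpace ℝ ι), (∀ u, u ≤ v → x u = y u) → F v x = F v y

/-- the measure with the density `∏_v F_v` -/
noncomputable def law {ι : Type} [Fintype ι] (F : ι → EuclideanSpace ℝ ι → ℝ) :
    Measure (EuclideanSpace ℝ ι) := volume.withDensity fun x => ENNReal.ofReal (∏ v, F v x)

/-- Minkowski (exterior) boundary measure `μ⁺(S)` -/
noncomputable def bdry {ι : Type} [Fintype ι] (μ : Measure (EuclideanSpace ℝ ι))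
    (S : Set (EuclideanSpace ℝ ι)) : ℝ≥0∞ :=
  Filter.liminf (fun ε : ℝ => (μ (Metric.thickening ε S) - μ S) / ENNReal.ofReal ε)
    (nhdsWithin 0 (Set.Ioi 0))

/-- the halfspace `⟪u, x⟫ ≤ r` -/
def halfspace {ι : Type} [Fintype ι] (u : EuclideanSpace ℝ ι) (r : ℝ) : Set (EuclideanSpace ℝ ι) :=
  {x | ⟪u, x⟫_ℝ ≤ r}

/-- the variance of `⟪x, θ⟫` is at most `s` for all unit vectors `θ` -/
def VarianceLe {ι : Type} [Fintype ι] (μ : Measure (EuclideanSpace ℝ ι)) (s : ℝ) : Prop :=
  ∀ θ : EuclideanSpace ℝ ι, ‖θ‖ = 1 → variance (fun x => ⟪x, θ⟫_ℝ) μ ≤ s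

/-- `s` bounds the covariance matrix of the marginal on the coordinates in `J`: the variance of `⟪θ, X⟫` is
at most `s |θ|²` for all `θ` with `θ_i = 0` for `i ∉ J` -/
def CovLe {ι : Type} [Fintype ι] (J : Set ι) (μ : Measure (EuclideanSpace ℝ ι)) (s : ℝ) : Prop :=
  ∀ θ : EuclideanSpace ℝ ι, (∀ i, i ∉ J → θ i = 0) →
    evariance (fun x => ⟪θ, x⟫_ℝ) μ ≤ ENNReal.ofReal (s * ‖θ‖ ^ 2)

/-- Poincare inequality with the constant `D` for the marginal on the coordinates in `J`:
`Var f ≤ D E |∇ f|²` for all functions `f` of class `C¹` which depend only on the coordinates in `J`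
(both sides in `[0, ∞]`) -/
def Poincare {ι : Type} [Fintype ι] (J : Set ι) (μ : Measure (EuclideanSpace ℝ ι)) (D : ℝ) : Prop :=
  ∀ f : EuclideanSpace ℝ ι → ℝ, ContDiff ℝ 1 f → (∀ x y, (∀ i, i ∈ J → x i = y i) → f x = f y) →
    evariance f μ ≤ ENNReal.ofReal D * ∫⁻ x, ENNReal.ofReal (‖fderiv ℝ f x‖ ^ 2) ∂μ

/-- **The KLS conjecture for log-concave measures of bounded tree-depth and their marginals.** There is an
absolute constant `C` such that for every rooted forest `ι` of height at most `d` and all log-concave factors
`F_v`, `F_v` depending on the coordinates of `v` and of its ancestors, for which `∏_v F_v` is the density of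
a probability measure `μ`:
(1) if the variances of the linear functionals of norm one are at most `s` then
`min(μ S, μ Sᶜ) / (C^d √s) ≤ μ⁺(S)` for all measurable `S`;
(2) if `t min(μ H, μ Hᶜ) ≤ μ⁺(H)` for all halfspaces `H` then `t min(μ S, μ Sᶜ) / C^d ≤ μ⁺(S)` for all
measurable `S`;
(3) for every `J ⊆ ι`: if `s ≥ 0` bounds the covariance matrix of the marginal of `μ` on `ℝ^J` then this
marginal satisfies the Poincare inequality with the constant `C^d s`. -/
theorem result : ∃ C : ℝ, 1 ≤ C ∧ ∀ (ι : Type) [Fintype ι] [PartialOrder ι] (d : ℕ), Forest ι d →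
    ∀ F : ι → EuclideanSpace ℝ ι → ℝ, Factors F → IsProbabilityMeasure (law F) →
    (∀ s : ℝ, 0 < s → VarianceLe (law F) s →
      ∀ S : Set (EuclideanSpace ℝ ι), MeasurableSet S →
        ENNReal.ofReal (1 / C ^ d / Real.sqrt s) * min (law F S) (law F Sᶜ) ≤ bdry (law F) S) ∧
    (∀ t : ℝ≥0∞, (∀ (u : EuclideanSpace ℝ ι) (r : ℝ), u ≠ 0 →
        t * min (law F (halfspace u r)) (law F (halfspace u r)ᶜ) ≤ bdry (law F) (halfspace u r)) →
      ∀ S : Set (EuclideanSpace ℝ ι), MeasurableSet S →
        ENNReal.ofReal (1 / C ^ d) * t * min (law F S) (law F Sᶜ) ≤ bdry (law F) S) ∧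
    (∀ (J : Set ι) (s : ℝ), 0 ≤ s → CovLe J (law F) s → Poincare J (law F) (C ^ d * s)) := by
  obtain ⟨C, hC, H⟩ := Pool.Agent.Q86.EM.q_dgj
  have hC0 : 0 < C := by linarith
  refine ⟨50 * C, by linarith, ?_⟩
  intro ι _ _ d hF F hFac hP
  have hCd : 1 ≤ C ^ d := one_le_pow₀ hC
  have hCd0 : 0 < C ^ d := by linarith
  have hmono : C ^ d ≤ (50 * C) ^ d := pow_le_pow_left₀ hC0.le (by linarith) d
  have hden : Q289.LD.Den fun x => ∏ v, F v x := by
    refine ⟨fun x => Finset.prod_nonneg fun v _ => hFac.nonneg v x,
      Finset.measurable_prod _ fun v _ => hFac.measurable v, fun x y r hr hr1 => ?_, ?_⟩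
    · rw [← Real.finsetProd_rpow _ _ fun v _ => hFac.nonneg v x,
        ← Real.finsetProd_rpow _ _ fun v _ => hFac.nonneg v y, ← Finset.prod_mul_distrib]
      exact Finset.prod_le_prod (fun v _ => mul_nonneg (Real.rpow_nonneg (hFac.nonneg v x) _)
        (Real.rpow_nonneg (hFac.nonneg v y) _)) fun v _ => hFac.logConcave v x y r hr hr1
    · have h1 : ∫⁻ x, ENNReal.ofReal (∏ v, F v x) = 1 := by
        have h2 := hP.measure_univ
        unfold law at h2
        rwa [withDensity_apply _ MeasurableSet.univ, Measure.restrict_univ] at h2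
      rw [integral_eq_lintegral_of_nonneg_ae
        (Filter.Eventually.of_forall fun x => Finset.prod_nonneg fun v _ => hFac.nonneg v x)
        (Finset.measurable_prod _ fun v _ => hFac.measurable v).aestronglyMeasurable, h1,
        ENNReal.toReal_one]
  have hKP : Q289.LD.KP (law F) (C ^ d) := by
    intro s hs hcov f hf
    exact H ι d ⟨hF.chain, hF.height⟩ F
      ⟨hFac.nonneg, hFac.measurable, hFac.logConcave, hFac.branch⟩ (law F) rfl hP univ s hs.le
      (fun θ _ => hcov θ) f hf (fun x y h => by
        have : x = y := by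
          ext i
          exact h i (mem_univ i)
        rw [this])
  have hsq : Real.sqrt (C ^ d) ≤ C ^ d := by
    rw [Real.sqrt_le_left hCd0.le]
    nlinarith
  have hsq0 : 0 < Real.sqrt (C ^ d) := Real.sqrt_pos.2 hCd0
  -- the constants, if there is a coordinate
  have hcmp : Nonempty ι → 50 * Real.sqrt (C ^ d) ≤ (50 * C) ^ d := by
    rintro ⟨v⟩
    have hd : 1 ≤ d := by
      refine le_trans ?_ (hF.height v)
      have : Nonempty {u : ι // u ≤ v} := ⟨⟨v, le_rfl⟩⟩
      exact Nat.one_le_iff_ne_zero.2 Nat.card_pos.ne'
    rw [mul_pow]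
    have h50 : (50 : ℝ) ≤ 50 ^ d := by
      calc (50 : ℝ) = 50 ^ 1 := (pow_one _).symm
        _ ≤ 50 ^ d := pow_le_pow_right₀ (by norm_num) hd
    exact mul_le_mul h50 hsq hsq0.le (by positivity)
  have hempty : IsEmpty ι → ∀ S : Set (EuclideanSpace ℝ ι), min (law F S) (law F Sᶜ) = 0 := by
    intro he S
    rcases eq_empty_or_nonempty S with h | ⟨x, hx⟩
    · rw [h, measure_empty]
      exact min_eq_left bot_le
    · have : S = univ := eq_univ_of_forall fun y => by
        rwa [Subsingleton.elim y x]
      rw [this, compl_univ, measure_empty]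
      exact min_eq_right bot_le
  refine ⟨fun s hs hv S hS => ?_, fun t ht S hS => ?_, fun J s hs hcov f hf hfJ => ?_⟩
  · rcases isEmpty_or_nonempty ι with he | hne
    · rw [hempty he, mul_zero]
      exact bot_le
    · refine le_trans (mul_le_mul_left ?_ _) (Q289.LD.gen3 hden rfl hCd0 hKP hs hv hS)
      refine ENNReal.ofReal_le_ofReal ?_
      have h1 := hcmp hne
      have h2 : 1 / (50 * C) ^ d ≤ 1 / (14 * Real.sqrt (C ^ d)) :=
        one_div_le_one_div_of_le (by positivity) (by linarith)
      exact div_le_div_of_nonneg_right h2 (Real.sqrt_nonneg s)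
  · rcases isEmpty_or_nonempty ι with he | hne
    · rw [hempty he, mul_zero]
      exact bot_le
    · refine le_trans (mul_le_mul_left (mul_le_mul_left ?_ _) _)
        (Q289.LD.gen4 hden rfl hCd0 hKP t ht hS)
      refine ENNReal.ofReal_le_ofReal ?_
      exact one_div_le_one_div_of_le (by positivity) (hcmp hne)
  · refine (H ι d ⟨hF.chain, hF.height⟩ F
      ⟨hFac.nonneg, hFac.measurable, hFac.logConcave, hFac.branch⟩ (law F) rfl hP J s hs hcov f hf
      hfJ).trans (mul_le_mul_left ?_ _)
    exact ENNReal.ofReal_le_ofReal (mul_le_mul_of_nonneg_right hmono hs)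

end Pool.Agent.Results.MP_6d896a_gt.BoundedTreeDepthIsoperimetry
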