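import Pool.Agent.Q188.TS.Iso

/-!
# KLS for log-concave measures with a Gaussian factor of small trace deficiency

An inequality between the theorem `C_P ≤ C tr A` of Kannan, Lovasz and Simonovits and the theorem of
Bakry and Emery (Brascamp-Lieb): if `μ` is a probability measure on `ℝⁿ` with density
`g(x) exp(- ∑ b_i ⟪e_i, x⟫² / 2)`, `g` log-concave, `e` an orthonormal basis, `b_i ≥ 0`, then for every
`K > 0` the Poincare constant of `μ` is at most `D = K + C ∑ (1 - K b_i)₊ Var⟪e_i, X⟫`, with an absolute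
constant `C`, and the isoperimetric constant of `μ` is at least `1 / (14 √D)`, for all measurable sets.
`K → 0` is the first theorem, `K = 1 / min b_i` is the second one. For `K = s`, a bound for the norm of
the covariance matrix, this is KLS, in the form of the frozen statement, for the class of all these
measures with `∑ (1 - s b_i)₊ ≤ q`, for fixed `q` and all dimensions; for instance all `b_i ≥ 1 / s`
except `q` of them, which may be zero.

Method. With weights `q_i > 0`, `b_i + q_i ≥ 1 / K`, let `U = (√q_i ⟪e_i, X⟫)_i` and `Y = U + G`. The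
law of `X` given `Y` has Poincare constant at most `K`. Let `F = E(f | Y)` and `G = E(F | U)`. From
`E |∇ G|² ≤ E F² - E G²` and the Poincare inequality for `U` (constant `D`) it follows that
`Var f ≤ (1 + D) E Var(f | Y)`; and `D ≤ C E |U - E U|² = C ∑ q_i Var⟪e_i, X⟫`. The Gaussian channel,
the inequality `D ≤ C E |U - E U|²` and the Poincare inequality for strongly log-concave densities
are modules `KT` and `KLS` of the starting files. Unbounded supports are treated by truncation. The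
passage from Poincare constants to all measurable sets (Ledoux) is module `Q289/LD`.
-/

set_option autoImplicit false

namespace Pool.Agent.Results.MP_6d896a_gt.GaussianFactorIsoperimetry

open MeasureTheory Set
open scoped ENNReal InnerProductSpace

/-- Euclidean space of dimension `n` -/
abbrev Euc (n : ℕ) : Type := EuclideanSpace ℝ (Fin n)

/-- `g` is nonnegative, measurable and log-concave -/
structure LogConcave {n : ℕ} (g : Euc n → ℝ) : Prop where
  nonneg : ∀ x, 0 ≤ g x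
  meas : Measurable g
  logc : ∀ x y, ∀ t : ℝ, 0 < t → t < 1 → g x ^ (1 - t) * g y ^ t ≤ g ((1 - t) • x + t • y)

/-- the density `g(x) exp(- ∑ b_i ⟪e_i, x⟫² / 2)` -/
noncomputable def density {n : ℕ} (e : OrthonormalBasis (Fin n) ℝ (Euc n)) (b : Fin n → ℝ)
    (g : Euc n → ℝ) (x : Euc n) : ℝ :=
  g x * Real.exp (-(∑ i, b i * ⟪e i, x⟫_ℝ ^ 2) / 2)

/-- `Var ⟪θ, X⟫ ≤ v` (the variance may be infinite) -/
def VarLe {n : ℕ} (μ : Measure (Euc n)) (θ : Euc n) (v : ℝ) : Prop :=
  ProbabilityTheory.evariance (fun x => ⟪θ, x⟫_ℝ) μ ≤ ENNReal.ofReal v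

/-- the covariance matrix of `μ` has norm at most `s` -/
def CovLe {n : ℕ} (μ : Measure (Euc n)) (s : ℝ) : Prop :=
  ∀ θ : Euc n, ‖θ‖ = 1 → ProbabilityTheory.variance (fun x => ⟪x, θ⟫_ℝ) μ ≤ s

/-- Poincare inequality: `Var f ≤ D E ‖∇ f‖²` for all `C¹` functions `f ∈ L²(μ)`. -/
def PoincareLe {n : ℕ} (μ : Measure (Euc n)) (D : ℝ) : Prop :=
  ∀ f : Euc n → ℝ, ContDiff ℝ 1 f → MemLp f 2 μ →
    ENNReal.ofReal (ProbabilityTheory.variance f μ) ≤
      ENNReal.ofReal D * ∫⁻ x, ENNReal.ofReal (‖fderiv ℝ f x‖ ^ 2) ∂μ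

/-- Minkowski (exterior) boundary measure `μ⁺(S)` -/
noncomputable def bdry {n : ℕ} (μ : Measure (Euc n)) (S : Set (Euc n)) : ℝ≥0∞ :=
  Filter.liminf (fun ε : ℝ => (μ (Metric.thickening ε S) - μ S) / ENNReal.ofReal ε)
    (nhdsWithin 0 (Set.Ioi 0))

/-- the isoperimetric (Cheeger) constant of `μ` is at least `c`: `c min(μ S, μ Sᶜ) ≤ μ⁺(S)` for all
measurable sets `S` -/
def CheegerGe {n : ℕ} (μ : Measure (Euc n)) (c : ℝ) : Prop :=
  ∀ S : Set (Euc n), MeasurableSet S → ENNReal.ofReal c * min (μ S) (μ Sᶜ) ≤ bdry μ S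

/-- the same inequality for the halfspaces `⟪u, x⟫ ≤ r`, `u ≠ 0` -/
def HalfspaceGe {n : ℕ} (μ : Measure (Euc n)) (t : ℝ) : Prop :=
  ∀ (u : Euc n) (r : ℝ), u ≠ 0 →
    ENNReal.ofReal t * min (μ {x | ⟪u, x⟫_ℝ ≤ r}) (μ {x | ⟪u, x⟫_ℝ ≤ r}ᶜ) ≤
      bdry μ {x | ⟪u, x⟫_ℝ ≤ r}

/-- **Interpolation between the trace bound and Bakry-Emery, and KLS for Gaussian factors with small
trace deficiency.** There is an absolute constant `C` such that for all `n`, every orthonormal basis
`e` of `ℝⁿ`, all `b_i ≥ 0`, every log-concave `g` for which the measure `μ` with density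
`g(x) exp(- ∑ b_i ⟪e_i, x⟫² / 2)` is a probability measure:
(1) if `Var ⟪e_i, X⟫ ≤ v_i` for all `i`, then for every `K > 0` and `D = K + C ∑ (1 - K b_i)₊ v_i` the
Poincare constant of `μ` is at most `D` and the isoperimetric constant at least `1 / (14 √D)`;
(2) if the norm of the covariance matrix is at most `s > 0` and `Q = 1 + C ∑ (1 - s b_i)₊`, the
Poincare constant is at most `Q s` and the isoperimetric constant is at least `1 / (14 √Q √s)`;
(3) if `t min(μ H, μ Hᶜ) ≤ μ⁺(H)` for all halfspaces `H`, `t > 0`, then the isoperimetric constant is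
at least `t / (40 √Q)`, `Q = 1 + C ∑ (1 - 8 b_i / t²)₊`. -/
theorem result : ∃ C : ℝ, 0 < C ∧ ∀ (n : ℕ) (e : OrthonormalBasis (Fin n) ℝ (Euc n))
    (b : Fin n → ℝ) (g : Euc n → ℝ), (∀ i, 0 ≤ b i) → LogConcave g → ∀ μ : Measure (Euc n),
    μ = volume.withDensity (fun x => ENNReal.ofReal (density e b g x)) → IsProbabilityMeasure μ →
    (∀ v : Fin n → ℝ, (∀ i, 0 ≤ v i) → (∀ i, VarLe μ (e i) (v i)) → ∀ K : ℝ, 0 < K →
      PoincareLe μ (K + C * ∑ i, max (1 - K * b i) 0 * v i) ∧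
      CheegerGe μ (1 / 14 / Real.sqrt (K + C * ∑ i, max (1 - K * b i) 0 * v i))) ∧
    (∀ s : ℝ, 0 < s → CovLe μ s →
      PoincareLe μ ((1 + C * ∑ i, max (1 - s * b i) 0) * s) ∧
      CheegerGe μ (1 / 14 / Real.sqrt (1 + C * ∑ i, max (1 - s * b i) 0) / Real.sqrt s)) ∧
    (∀ t : ℝ, 0 < t → HalfspaceGe μ t →
      CheegerGe μ (t / (40 * Real.sqrt (1 + C * ∑ i, max (1 - 8 / t ^ 2 * b i) 0)))) := by
  obtain ⟨C, hC, hcr⟩ := Pool.Agent.H888R2.KT.crude
  refine ⟨C, hC, ?_⟩
  intro n e b g hb hg μ hμ hP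
  have hg' : Pool.Agent.Q188.TS.LCF g := ⟨hg.nonneg, hg.meas, hg.logc⟩
  have hμ' : μ = Pool.Agent.H212R2.KLS.mu (Pool.Agent.Q188.TS.dens e b g) := hμ
  have hμ2 : μ = volume.withDensity
      (fun x => ENNReal.ofReal (Pool.Agent.Q188.TS.dens e b g x)) := hμ
  have hDen := Pool.Agent.Q188.TS.Iso.den_dens e b hb hg' hμ2
  have hSn : ∀ (v : Fin n → ℝ) (K : ℝ), (∀ i, 0 ≤ v i) → 0 ≤ ∑ i, max (1 - K * b i) 0 * v i :=
    fun v K hv => Finset.sum_nonneg fun i _ => mul_nonneg (le_max_right _ _) (hv i)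
  have hDp : ∀ (v : Fin n → ℝ) (K : ℝ), (∀ i, 0 ≤ v i) → 0 < K →
      0 < K + C * ∑ i, max (1 - K * b i) 0 * v i := by
    intro v K hv hK
    have := mul_nonneg hC.le (hSn v K hv)
    linarith
  have main : ∀ v : Fin n → ℝ, (∀ i, 0 ≤ v i) → (∀ i, VarLe μ (e i) (v i)) → ∀ K : ℝ, 0 < K →
      PoincareLe μ (K + C * ∑ i, max (1 - K * b i) 0 * v i) := by
    intro v hv hvar K hK f hf hL
    have hD := hDp v K hv hK
    have hdc : Continuous fun x => ‖fderiv ℝ f x‖ ^ 2 :=
      (hf.continuous_fderiv one_ne_zero).norm.pow 2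
    rcases eq_or_ne (∫⁻ x, ENNReal.ofReal (‖fderiv ℝ f x‖ ^ 2) ∂μ) ⊤ with h | h
    · rw [h, ENNReal.mul_top (ENNReal.ofReal_pos.2 hD).ne']
      exact le_top
    · have hi : Integrable (fun x => ‖fderiv ℝ f x‖ ^ 2) μ := by
        refine ⟨hdc.aestronglyMeasurable, ?_⟩
        rw [hasFiniteIntegral_iff_ofReal (Filter.Eventually.of_forall fun x => sq_nonneg _)]
        exact lt_top_iff_ne_top.2 h
      rw [← ofReal_integral_eq_lintegral_ofReal hi
        (Filter.Eventually.of_forall fun x => sq_nonneg _), ← ENNReal.ofReal_mul hD.le]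
      refine ENNReal.ofReal_le_ofReal ?_
      rw [hμ'] at hP hL hi hvar ⊢
      exact Pool.Agent.Q188.TS.interp hC (fun ρ => hcr ρ) e b v hb hv g hg' hP hvar K hK f hf hL hi
  have iso : ∀ D : ℝ, 0 < D → PoincareLe μ D → CheegerGe μ (1 / 14 / Real.sqrt D) :=
    fun D hD hPD S hS => Pool.Agent.Q188.TS.Iso.iso_gen hDen hμ2 hD hPD hS
  have kls : ∀ s : ℝ, 0 < s → CovLe μ s →
      PoincareLe μ ((1 + C * ∑ i, max (1 - s * b i) 0) * s) := by
    intro s hs hcov
    have h1 := main (fun _ => s) (fun _ => hs.le) (fun i => by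
      have hL2 := Q289.LD.memLp_lin Q289.LD.tLIM hDen hμ2 (e i)
      unfold VarLe
      rw [← hL2.ofReal_variance_eq]
      refine ENNReal.ofReal_le_ofReal ?_
      have h2 := hcov (e i) (e.orthonormal.1 i)
      have e2 : (fun x : Euc n => ⟪e i, x⟫_ℝ) = fun x => ⟪x, e i⟫_ℝ :=
        funext fun x => real_inner_comm _ _
      rw [e2]
      exact h2) s hs
    have e1 : s + C * ∑ i, max (1 - s * b i) 0 * s = (1 + C * ∑ i, max (1 - s * b i) 0) * s := by
      rw [← Finset.sum_mul]; ring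
    rw [e1] at h1
    exact h1
  have hQ : ∀ s : ℝ, 0 < 1 + C * ∑ i, max (1 - s * b i) 0 := by
    intro s
    have := mul_nonneg hC.le (Finset.sum_nonneg fun (i : Fin n) (_ : i ∈ Finset.univ) =>
      le_max_right (1 - s * b i) 0)
    linarith
  have kls2 : ∀ s : ℝ, 0 < s → CovLe μ s →
      CheegerGe μ (1 / 14 / Real.sqrt (1 + C * ∑ i, max (1 - s * b i) 0) / Real.sqrt s) := by
    intro s hs hcov
    have h1 := iso _ (mul_pos (hQ s) hs) (kls s hs hcov)
    rw [Real.sqrt_mul (hQ s).le, ← div_div] at h1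
    exact h1
  refine ⟨fun v hv hvar K hK => ⟨main v hv hvar K hK, iso _ (hDp v K hv hK) (main v hv hvar K hK)⟩,
    fun s hs hcov => ⟨kls s hs hcov, kls2 s hs hcov⟩, fun t ht hH S hS => ?_⟩
  have hac : μ ≪ volume := by
    rw [hμ]
    exact withDensity_absolutelyContinuous _ _
  have hcov : CovLe μ (8 / t ^ 2) := by
    intro θ hθ
    have h6 := (Q289.LD.half_gen hac ht (fun u r hu => by
      have h7 := hH u r hu
      rw [prob_compl_eq_one_sub (measurableSet_le (by fun_prop) measurable_const)] at h7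
      exact h7) hθ).2
    have e2 : (fun x : Euc n => ⟪x, θ⟫_ℝ) = fun x => ⟪θ, x⟫_ℝ :=
      funext fun x => real_inner_comm _ _
    rw [e2]
    exact h6
  have h5 := kls2 (8 / t ^ 2) (by positivity) hcov S hS
  refine le_trans (mul_le_mul_left ?_ _) h5
  refine ENNReal.ofReal_le_ofReal ?_
  set R := Real.sqrt (1 + C * ∑ i, max (1 - 8 / t ^ 2 * b i) 0) with hR
  have hRp : 0 < R := Real.sqrt_pos.2 (hQ _)
  rw [Real.sqrt_div (by norm_num), Real.sqrt_sq ht.le]
  have h8 : 0 < Real.sqrt 8 := Real.sqrt_pos.2 (by norm_num)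
  have h9 : 14 * Real.sqrt 8 ≤ 40 := by
    have : Real.sqrt 8 ≤ 20 / 7 := by
      rw [Real.sqrt_le_left (by norm_num)]
      norm_num
    linarith
  have e3 : 1 / 14 / R / (Real.sqrt 8 / t) = t / (14 * Real.sqrt 8 * R) := by
    field_simp
  rw [e3]
  exact div_le_div_of_nonneg_left ht.le (by positivity) (mul_le_mul_of_nonneg_right h9 hRp.le)

end Pool.Agent.Results.MP_6d896a_gt.GaussianFactorIsoperimetry
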