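import Pool.Agent.Q289.LD.Fin

/-!
# The KLS conjecture for independent log-concave variables conditioned on a partial order

Let `P` be a finite partially ordered set and `φ` a log-concave probability density on the line. The law
`μ` of independent variables `x_i`, `i ∈ P`, with density `φ`, conditioned on `x_i ≤ x_j` for all `i ≤ j`,
is log-concave. It satisfies the Kannan-Lovasz-Simonovits conjecture, in the form of the frozen statement
and in the halfspace form, with the absolute constants `1 / 112` and `1 / 400`. For `φ = 1` on `[0, 1]` these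
are the uniform measures on the order polytopes.

Method. Every Poincare constant of `φ` is a Poincare constant of `μ`, for all `P` and for all densities `φ`
which are positive and continuous on an interval: divide the interval in cells and condition on the cells
of the `x_i`: the weights of the configurations `c : P → {cells}` satisfy the lattice condition. The operator
which resamples the distribution of the labels over two neighbouring cells preserves monotone functions,
so by positive association its spectral gap is attained in the limit by the iterates of one increasing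
function. For `∑_i g(c_i)` these iterates are computed as for one particle: the sum of the weights of a class
is a power of the sum of the masses of the two cells. The other classes of two neighbouring cells with at
least two labels are negligible in the continuum limit. The passage from Poincare constants to all
measurable sets is Ledoux's, by the heat flow, here for arbitrary log-concave densities: `ρ` is approximated
by the densities proportional to `exp (- V_A)`, with `exp (- V_A)` the supremum of `ρ(y) exp (- A |x - y| ^ 2)`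
over `y`, whose potentials are semiconvex from above and convex.
-/

set_option autoImplicit false

namespace Pool.Agent.Results.MP_6d896a_gt.OrderConditionedIsoperimetry

open MeasureTheory Set
open scoped ENNReal InnerProductSpace

/-- log-concave probability densities on the line -/
structure LogConcaveDensity (φ : ℝ → ℝ) : Prop where
  nonneg : ∀ x, 0 ≤ φ x
  meas : Measurable φ
  conc : ∀ x y r : ℝ, 0 < r → r < 1 → φ x ^ (1 - r) * φ y ^ r ≤ φ ((1 - r) * x + r * y)
  mass : ∫ x, φ x = 1

/-- probability densities on the line which are continuous and positive on an open interval and vanish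
outside -/
structure IntervalDensity (φ : ℝ → ℝ) : Prop where
  nonneg : ∀ x, 0 ≤ φ x
  meas : Measurable φ
  mass : ∫ x, φ x = 1
  supp : ∃ U : Set ℝ, IsOpen U ∧ U.OrdConnected ∧ ContinuousOn φ U ∧ (∀ x ∈ U, 0 < φ x) ∧
    ∀ x, x ∉ U → φ x = 0

/-- the Poincare inequality with constant `C` for the density `φ`, for bounded `C¹` functions with bounded
derivative -/
def PoincareLine (φ : ℝ → ℝ) (C : ℝ) : Prop :=
  ∀ g : ℝ → ℝ, ContDiff ℝ 1 g → (∃ M, ∀ x, |g x| ≤ M) → (∃ L, ∀ x, |deriv g x| ≤ L) →
    ∫ x, (g x - ∫ y, g y * φ y) ^ 2 * φ x ≤ C * ∫ x, deriv g x ^ 2 * φ x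

/-- the law of independent random variables `x_i`, `i ∈ ι`, with density `φ` -/
noncomputable def iidLaw (ι : Type) [Fintype ι] (φ : ℝ → ℝ) : Measure (EuclideanSpace ℝ ι) :=
  volume.withDensity fun x => ENNReal.ofReal (∏ i, φ (x i))

/-- this law conditioned on `x_i ≤ x_j` for all `i ≤ j` -/
noncomputable def orderedLaw (ι : Type) [Fintype ι] [PartialOrder ι] (φ : ℝ → ℝ) :
    Measure (EuclideanSpace ℝ ι) :=
  ProbabilityTheory.cond (iidLaw ι φ) {x : EuclideanSpace ℝ ι | Monotone fun i => x i}

/-- Minkowski (exterior) boundary measure `μ⁺(S)` -/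
noncomputable def bdry {ι : Type} [Fintype ι] (μ : Measure (EuclideanSpace ℝ ι))
    (S : Set (EuclideanSpace ℝ ι)) : ℝ≥0∞ :=
  Filter.liminf (fun ε : ℝ => (μ (Metric.thickening ε S) - μ S) / ENNReal.ofReal ε)
    (nhdsWithin 0 (Set.Ioi 0))

/-- the covariance matrix of `μ` has norm at most `s` -/
def CovLe {ι : Type} [Fintype ι] (μ : Measure (EuclideanSpace ℝ ι)) (s : ℝ) : Prop :=
  ∀ θ : EuclideanSpace ℝ ι, ‖θ‖ = 1 → ProbabilityTheory.variance (fun x => ⟪x, θ⟫_ℝ) μ ≤ s

/-- the halfspace `⟪u, x⟫ ≤ r` -/
def halfspace {ι : Type} [Fintype ι] (u : EuclideanSpace ℝ ι) (r : ℝ) : Set (EuclideanSpace ℝ ι) :=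
  {x | ⟪u, x⟫_ℝ ≤ r}

/-- the Poincare inequality with constant `C` for all `C¹` functions (both sides may be infinite) -/
def Poincare {ι : Type} [Fintype ι] (μ : Measure (EuclideanSpace ℝ ι)) (C : ℝ) : Prop :=
  ∀ f : EuclideanSpace ℝ ι → ℝ, ContDiff ℝ 1 f →
    ProbabilityTheory.evariance f μ ≤
      ENNReal.ofReal C * ∫⁻ x, ENNReal.ofReal (‖fderiv ℝ f x‖ ^ 2) ∂μ

/-- **KLS for independent variables conditioned on a partial order.** For every finite nonempty partially
ordered set `ι` and every log-concave probability density `φ`, the law `μ` of independent variables with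
density `φ`, conditioned on being order preserving, is a probability measure, and
(1) if its covariance matrix has norm at most `s` then `min(μ S, μ Sᶜ) / (112 √s) ≤ μ⁺(S)` for all measurable
`S`, and `Var f ≤ 64 s E ‖∇ f‖²` for all `C¹` functions `f`;
(2) if `t min(μ H, μ Hᶜ) ≤ μ⁺(H)` for all halfspaces `H` then `t min(μ S, μ Sᶜ) / 400 ≤ μ⁺(S)` for all
measurable `S`;
(3) `μ(S) (1 - μ(S)) ≤ 7 √C μ⁺(S)` for all measurable `S` and all Poincare constants `C` of `φ`.
For every probability density `φ` which is positive and continuous on an open interval and vanishes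
outside, every Poincare constant of `φ` is a Poincare constant of `μ`. -/
theorem result : ∀ (ι : Type) [Fintype ι] [PartialOrder ι] [Nonempty ι] (φ : ℝ → ℝ),
    (LogConcaveDensity φ → IsProbabilityMeasure (orderedLaw ι φ) ∧
      (∀ s : ℝ, 0 < s → CovLe (orderedLaw ι φ) s →
        (∀ S : Set (EuclideanSpace ℝ ι), MeasurableSet S →
          ENNReal.ofReal (1 / 112 / Real.sqrt s) *
            min (orderedLaw ι φ S) (orderedLaw ι φ Sᶜ) ≤ bdry (orderedLaw ι φ) S) ∧
        Poincare (orderedLaw ι φ) (64 * s)) ∧
      (∀ t : ℝ≥0∞, (∀ (u : EuclideanSpace ℝ ι) (r : ℝ), u ≠ 0 →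
          t * min (orderedLaw ι φ (halfspace u r)) (orderedLaw ι φ (halfspace u r)ᶜ) ≤
            bdry (orderedLaw ι φ) (halfspace u r)) →
        ∀ S : Set (EuclideanSpace ℝ ι), MeasurableSet S →
          ENNReal.ofReal (1 / 400) * t * min (orderedLaw ι φ S) (orderedLaw ι φ Sᶜ) ≤
            bdry (orderedLaw ι φ) S) ∧
      (∀ C : ℝ, 0 < C → PoincareLine φ C →
        ∀ S : Set (EuclideanSpace ℝ ι), MeasurableSet S →
          orderedLaw ι φ S * (1 - orderedLaw ι φ S) ≤
            ENNReal.ofReal (7 * Real.sqrt C) * bdry (orderedLaw ι φ) S)) ∧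
    (IntervalDensity φ → ∀ C : ℝ, 0 < C → PoincareLine φ C → Poincare (orderedLaw ι φ) C) := by
  classical
  intro ι _ _ _ φ
  have hlaw : orderedLaw ι φ = Q289.OP.mu ι φ := Q289.OP.cond_eq ι φ
  have hint : (∫ x, φ x = 1) → Integrable φ := by
    intro h
    by_contra hc
    rw [integral_undef hc] at h
    norm_num at h
  rw [hlaw]
  refine ⟨fun h => ?_, fun h C hC hP => ?_⟩
  · have hLC : Pool.Agent.Q73.KL.LC1 φ :=
      ⟨h.nonneg, h.meas, h.conc, hint h.mass, by rw [h.mass]; norm_num⟩
    obtain ⟨h1, h2, h3⟩ := Q237.OP.Lc1.onedlc φ hLC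
    refine ⟨(Q289.OP.tS ι φ _ h1 h2 h3).1, fun s hs hcov => ⟨fun S hS => ?_, fun f hf => ?_⟩,
      fun t ht S hS => ?_, fun C hC hP S hS => ?_⟩
    · exact Q289.LD.iso3 ι Q289.LD.tLED Q289.LD.tLIM hLC hs hcov hS
    · refine ((Q289.OP.tS ι φ _ h1 h2 h3).2 f hf).trans (mul_le_mul_left ?_ _)
      exact ENNReal.ofReal_le_ofReal (Q289.LD.cc_var ι Q289.LD.tLIM hLC hs hcov)
    · exact Q289.LD.iso4 ι Q289.LD.tLED Q289.LD.tLIM hLC t ht hS
    · refine Q289.LD.iso1 ι Q289.LD.tLED hLC hC (fun g hg hM hL => ?_) hS
      have := hP g hg hM hL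
      rw [h.mass, div_one]
      exact this
  · intro f hf
    have hU : ∃ U : Set ℝ, IsOpen U ∧ U.OrdConnected ∧ U.Nonempty ∧ ContinuousOn φ U ∧
        (∀ x ∈ U, 0 < φ x) ∧ ∀ᵐ x : ℝ, x ∉ U → φ x = 0 := by
      obtain ⟨U, h1, h2, h3, h4, h5⟩ := h.supp
      refine ⟨U, h1, h2, ?_, h3, h4, Filter.Eventually.of_forall h5⟩
      by_contra hne
      rw [Set.not_nonempty_iff_eq_empty] at hne
      have h6 : φ = fun _ => 0 := funext fun x => h5 x (by rw [hne]; exact Set.notMem_empty x)
      have h7 := h.mass
      rw [h6] at h7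
      simp at h7
    refine (Q289.OP.tS ι φ C ⟨h.nonneg, h.meas, hint h.mass, hU⟩ hC ?_).2 f hf
    intro g hg hM hL
    have := hP g hg hM hL
    rw [h.mass, div_one]
    exact this

end Pool.Agent.Results.MP_6d896a_gt.OrderConditionedIsoperimetry
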