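import Pool.Agent.Q86.FIB.BaseC
import Pool.Agent.Q86.FIB.Strong

/-!
# A two-scale Poincaré inequality for log-concave measures

Let `μ = e^(-W)` be a log-concave probability measure on `ℝ^k × ℝ^n`. If the marginal on `ℝ^k` has the
Poincaré constant `C₀`, the conditional measures on `ℝ^n` have the Poincaré constant `p`, and the
conditional mean `E[z | t]` is `L`-Lipschitz, then `μ` has the Poincaré constant `2 C₀ (1 + L²) + 3 p`. No
bound on the mixed derivatives of `W` is assumed: the convexity of `W` in all variables takes their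
place. With the inequality of Kannan, Lovász and Simonovits for the marginal this gives the KLS inequality
in all dimensions `n`, for each `k`, for instance if `W` is even and strongly convex in `z`.

Method. Test `E[f | t]` with `q = -L_V Q`, `L_V` the generator of the marginal, and correct the field `∇Q`
by a field `∇_z Φ` in the fibres, which solves `L_z Φ = -(∂_t W - E[∂_t W | t]) ∇Q` approximately (a density
theorem for the range of the generator). Bochner's formula in the fibres, in the base, and the convexity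
of `W` give `E |D_z² Φ|² ≤ E q²`.
-/

set_option autoImplicit false

namespace Pool.Agent.Results.MP_6d896a_gt.TwoScale

open MeasureTheory Set

/-- `ℝ^k × ℝ^n`, with points `x = (t, z)` -/
abbrev Space (k n : ℕ) : Type := (Fin k → ℝ) × (Fin n → ℝ)

variable {k n : ℕ}

/-- The integral of `F` against the measure with the density `e^(-W)`. -/
noncomputable def ev (W F : Space k n → ℝ) : ℝ :=
  ∫ x, F x * Real.exp (-W x) ∂((volume : Measure (Fin k → ℝ)).prod (volume : Measure (Fin n → ℝ)))

/-- The variance. -/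
noncomputable def var (W F : Space k n → ℝ) : ℝ := ev W (fun x => F x ^ 2) - (ev W F) ^ 2

/-- `W` is smooth with derivatives of polynomial growth and convex, and `e^(-W)` is the density of a
probability measure. -/
structure Potential (W : Space k n → ℝ) : Prop where
  smooth : Function.HasTemperateGrowth W
  convex : ConvexOn ℝ univ W
  integrable : Integrable (fun x => Real.exp (-W x))
    ((volume : Measure (Fin k → ℝ)).prod (volume : Measure (Fin n → ℝ)))
  mass : ev W (fun _ => 1) = 1

/-- `|∇_t f|²` -/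
noncomputable def baseGrad (f : Space k n → ℝ) (x : Space k n) : ℝ :=
  ∑ a : Fin k, (fderiv ℝ f x (Pi.single a 1, 0)) ^ 2

/-- `|∇_z f|²` -/
noncomputable def fibreGrad (f : Space k n → ℝ) (x : Space k n) : ℝ :=
  ∑ i : Fin n, (fderiv ℝ f x (0, Pi.single i 1)) ^ 2

/-- The `C¹` functions `f` such that `f`, `|∇_t f|` and `|∇_z f|` are square integrable. -/
structure Admissible (W f : Space k n → ℝ) : Prop where
  smooth : ContDiff ℝ 1 f
  sq : Integrable (fun x => f x ^ 2 * Real.exp (-W x))
    ((volume : Measure (Fin k → ℝ)).prod (volume : Measure (Fin n → ℝ)))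
  base : Integrable (fun x => baseGrad f x * Real.exp (-W x))
    ((volume : Measure (Fin k → ℝ)).prod (volume : Measure (Fin n → ℝ)))
  fibre : Integrable (fun x => fibreGrad f x * Real.exp (-W x))
    ((volume : Measure (Fin k → ℝ)).prod (volume : Measure (Fin n → ℝ)))

/-- The Poincaré inequality with the constant `D`. -/
def Poincare (W : Space k n → ℝ) (D : ℝ) : Prop :=
  ∀ f, Admissible W f → var W f ≤ D * ev W (fun x => baseGrad f x + fibreGrad f x)

/-- The density of the marginal on `ℝ^k`. -/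
noncomputable def marginal (W : Space k n → ℝ) (t : Fin k → ℝ) : ℝ :=
  ∫ z : Fin n → ℝ, Real.exp (-W (t, z))

/-- The Poincaré inequality for the marginal, for `C¹` functions of compact support. -/
def BasePoincare (W : Space k n → ℝ) (C₀ : ℝ) : Prop :=
  ∀ φ : (Fin k → ℝ) → ℝ, ContDiff ℝ 1 φ → HasCompactSupport φ →
    (∫ t, φ t ^ 2 * marginal W t) - (∫ t, φ t * marginal W t) ^ 2 ≤
      C₀ * ∫ t, (∑ a, (fderiv ℝ φ t (Pi.single a 1)) ^ 2) * marginal W t

/-- The Poincaré inequality with the constant `p` for all conditional measures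
`e^(-W(t, z)) dz / marginal W t`, for `C¹` functions of compact support (multiplied by
`(marginal W t)²`). -/
def FibrePoincare (W : Space k n → ℝ) (p : ℝ) : Prop :=
  ∀ t, ∀ φ : (Fin n → ℝ) → ℝ, ContDiff ℝ 1 φ → HasCompactSupport φ →
    marginal W t * (∫ z, φ z ^ 2 * Real.exp (-W (t, z))) -
      (∫ z, φ z * Real.exp (-W (t, z))) ^ 2 ≤
      p * marginal W t * ∫ z, (∑ i, (fderiv ℝ φ z (Pi.single i 1)) ^ 2) * Real.exp (-W (t, z))

/-- The conditional mean `E[z_i | t]`. -/
noncomputable def mean (W : Space k n → ℝ) (i : Fin n) (t : Fin k → ℝ) : ℝ :=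
  (∫ z : Fin n → ℝ, z i * Real.exp (-W (t, z))) / marginal W t

/-- The conditional mean is `L`-Lipschitz for the Euclidean norms. -/
def MeanLipschitz (W : Space k n → ℝ) (L : ℝ) : Prop :=
  ∀ t t' : Fin k → ℝ, ∑ i, (mean W i t - mean W i t') ^ 2 ≤ L ^ 2 * ∑ a, (t a - t' a) ^ 2

/-- `z ↦ W(t, z) - κ |z|² / 2` is convex for all `t`. -/
def StronglyConvexFibres (W : Space k n → ℝ) (κ : ℝ) : Prop :=
  ∀ t, ConvexOn ℝ univ (fun z : Fin n → ℝ => W (t, z) - κ / 2 * ∑ i, z i ^ 2)

/-- **The two-scale inequality.** -/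
theorem result :
    (∀ (k n : ℕ) (W : Space k n → ℝ), Potential W → ∀ C₀ p L : ℝ, 0 ≤ C₀ → 0 ≤ p → 0 ≤ L →
      BasePoincare W C₀ → FibrePoincare W p → MeanLipschitz W L → ∀ f, Admissible W f →
        var W f ≤ (Real.sqrt C₀ * (Real.sqrt (ev W (baseGrad f)) +
          L * Real.sqrt (ev W (fibreGrad f))) + Real.sqrt (p * ev W (fibreGrad f))) ^ 2 +
          p * ev W (fibreGrad f)) ∧
    (∃ C : ℝ, 0 < C ∧ ∀ (k n : ℕ) (W : Space k n → ℝ), Potential W → ∀ s p L : ℝ,
      0 < s → 0 ≤ p → 0 ≤ L → (∀ a : Fin k, var W (fun x => x.1 a) ≤ s) →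
      FibrePoincare W p → MeanLipschitz W L →
        Poincare W (C * (k + 1) * (1 + L ^ 2) * s + 3 * p)) ∧
    ∀ (k n : ℕ) (W : Space k n → ℝ), Potential W →
      (∀ κ : ℝ, 0 < κ → StronglyConvexFibres W κ → FibrePoincare W κ⁻¹) ∧
      ((∀ t z, W (t, -z) = W (t, z)) → MeanLipschitz W 0) := by
  have std : ∀ {k n : ℕ} {W : Space k n → ℝ}, Potential W → Pool.Agent.Q86.FIB.Std W :=
    fun h => ⟨h.smooth, h.convex, h.integrable⟩
  have mass : ∀ {k n : ℕ} {W : Space k n → ℝ}, Potential W →
      ∫ x, Real.exp (-W x) ∂(Pool.Agent.Q86.FIB.vol k n) = 1 := by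
    intro k n W h
    have h1 := h.mass
    unfold ev at h1
    simp_rw [one_mul] at h1
    exact h1
  have main : ∀ (k n : ℕ) (W : Space k n → ℝ), Potential W → ∀ C₀ p L : ℝ, 0 ≤ C₀ → 0 ≤ p →
      0 ≤ L → BasePoincare W C₀ → FibrePoincare W p → MeanLipschitz W L → ∀ f, Admissible W f →
        var W f ≤ (Real.sqrt C₀ * (Real.sqrt (ev W (baseGrad f)) +
          L * Real.sqrt (ev W (fibreGrad f))) + Real.sqrt (p * ev W (fibreGrad f))) ^ 2 +
          p * ev W (fibreGrad f) := by
    intro k n W hW C₀ p L hC hp hL hB hF hM f hf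
    exact (std hW).main_ext hp hF hL hM hC hB (mass hW) hf.smooth hf.sq hf.base hf.fibre
  refine ⟨main, ?_, ?_⟩
  · obtain ⟨C, hC, hcr⟩ := Pool.Agent.Q86.FIB.base_crude
    refine ⟨2 * C, by positivity, ?_⟩
    intro k n W hW s p L hs hp hL hv hF hM f hf
    have hW' := std hW
    have h1 := mass hW
    have hd : ∫ t, Pool.Agent.Q86.FIB.dens W t = 1 := by rw [hW'.tot_dens, h1]
    -- the variances of the coordinates
    have hvar : ∀ a : Fin k, ∫ t, (t a - ev W (fun x => x.1 a)) ^ 2 *
        Pool.Agent.Q86.FIB.dens W t ≤ s := by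
      intro a
      refine le_trans (le_of_eq ?_) (hv a)
      have htg : Function.HasTemperateGrowth (fun x : Space k n => x.1 a) :=
        ((ContinuousLinearMap.proj (R := ℝ) (φ := fun _ : Fin k => ℝ) a).comp
          (ContinuousLinearMap.fst ℝ (Fin k → ℝ) (Fin n → ℝ))).hasTemperateGrowth
      have pb := Pool.Agent.Q86.FIB.PB.of_htg htg
      have cb : Continuous (fun x : Space k n => x.1 a) := htg.1.continuous
      obtain ⟨m, hm⟩ : ∃ m : ℝ, m = ev W (fun x => x.1 a) := ⟨_, rfl⟩
      rw [← hm]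
      have i2 := hW'.integrable (pb.pow 2) (cb.pow 2)
      have i1 : Integrable (fun x : Space k n => 2 * m * (x.1 a * Real.exp (-W x)))
          (Pool.Agent.Q86.FIB.vol k n) := (hW'.integrable pb cb).const_mul _
      have i0 : Integrable (fun x : Space k n => m ^ 2 * Real.exp (-W x))
          (Pool.Agent.Q86.FIB.vol k n) := hW'.int.const_mul _
      have i21 : Integrable (fun x : Space k n => x.1 a ^ 2 * Real.exp (-W x) -
          2 * m * (x.1 a * Real.exp (-W x))) (Pool.Agent.Q86.FIB.vol k n) := i2.sub i1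
      have e1 : ∫ t, (t a - m) ^ 2 * Pool.Agent.Q86.FIB.dens W t =
          ∫ x : Space k n, (x.1 a - m) ^ 2 * Real.exp (-W x) ∂(Pool.Agent.Q86.FIB.vol k n) := by
        rw [hW'.fib_integral ((pb.sub (Pool.Agent.Q86.FIB.PB.const m)).pow 2)
          ((cb.sub continuous_const).pow 2)]
        refine integral_congr_ae (Filter.Eventually.of_forall fun t => ?_)
        simp only
        rw [Pool.Agent.Q86.FIB.dens_eq,
          ← Pool.Agent.Q86.FIB.Std.fib_base (fun t : Fin k → ℝ => (t a - m) ^ 2) (fun _ => 1) t]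
        exact Pool.Agent.Q86.FIB.Std.fib_congr t fun z => by ring
      have e2 : ∫ x : Space k n, (x.1 a - m) ^ 2 * Real.exp (-W x) ∂(Pool.Agent.Q86.FIB.vol k n) =
          (∫ x : Space k n, x.1 a ^ 2 * Real.exp (-W x) ∂(Pool.Agent.Q86.FIB.vol k n)) -
          (∫ x : Space k n, 2 * m * (x.1 a * Real.exp (-W x)) ∂(Pool.Agent.Q86.FIB.vol k n)) +
          ∫ x : Space k n, m ^ 2 * Real.exp (-W x) ∂(Pool.Agent.Q86.FIB.vol k n) := by
        rw [← integral_sub i2 i1, ← integral_add i21 i0]
        refine integral_congr_ae (Filter.Eventually.of_forall fun x => ?_)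
        simp only
        ring
      rw [e1, e2, integral_const_mul, integral_const_mul, h1]
      have e3 : ∫ x : Space k n, x.1 a * Real.exp (-W x) ∂(Pool.Agent.Q86.FIB.vol k n) = m := hm.symm
      unfold var
      rw [e3, ← hm]
      unfold ev
      ring
    have hB := hcr k n W hW' hd s hs (fun a => ev W (fun x => x.1 a)) hvar
    have hC0 : 0 ≤ C * (k + 1) * s := by positivity
    refine (main k n W hW (C * (k + 1) * s) p L hC0 hp hL hB hF hM f hf).trans ?_
    have hadd : ev W (fun x => baseGrad f x + fibreGrad f x) =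
        ev W (baseGrad f) + ev W (fibreGrad f) := by
      unfold ev
      rw [← integral_add hf.base hf.fibre]
      refine integral_congr_ae (Filter.Eventually.of_forall fun x => ?_)
      simp only
      ring
    rw [hadd]
    have hT : 0 ≤ ev W (baseGrad f) := integral_nonneg fun x =>
      mul_nonneg (Finset.sum_nonneg fun a _ => sq_nonneg _) (Real.exp_pos _).le
    have hZ : 0 ≤ ev W (fibreGrad f) := integral_nonneg fun x =>
      mul_nonneg (Finset.sum_nonneg fun a _ => sq_nonneg _) (Real.exp_pos _).le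
    obtain ⟨T, hT'⟩ : ∃ T, T = ev W (baseGrad f) := ⟨_, rfl⟩
    obtain ⟨Z, hZ'⟩ : ∃ Z, Z = ev W (fibreGrad f) := ⟨_, rfl⟩
    rw [← hT'] at hT
    rw [← hZ'] at hZ
    rw [← hT', ← hZ']
    obtain ⟨D, hD⟩ : ∃ D, D = C * (k + 1) * s := ⟨_, rfl⟩
    rw [← hD] at hC0 ⊢
    have e1 : Real.sqrt T ^ 2 = T := Real.sq_sqrt hT
    have e2 : Real.sqrt Z ^ 2 = Z := Real.sq_sqrt hZ
    have e3 : Real.sqrt D ^ 2 = D := Real.sq_sqrt hC0
    have e4 : Real.sqrt (p * Z) ^ 2 = p * Z := Real.sq_sqrt (mul_nonneg hp hZ)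
    have f1 : (Real.sqrt D * (Real.sqrt T + L * Real.sqrt Z) + Real.sqrt (p * Z)) ^ 2 ≤
        2 * (Real.sqrt D * (Real.sqrt T + L * Real.sqrt Z)) ^ 2 + 2 * Real.sqrt (p * Z) ^ 2 := by
      nlinarith [sq_nonneg (Real.sqrt D * (Real.sqrt T + L * Real.sqrt Z) - Real.sqrt (p * Z))]
    have f2 : (Real.sqrt T + L * Real.sqrt Z) ^ 2 ≤ (1 + L ^ 2) * (T + Z) := by
      nlinarith [sq_nonneg (L * Real.sqrt T - Real.sqrt Z)]
    have f3 : (Real.sqrt D * (Real.sqrt T + L * Real.sqrt Z)) ^ 2 ≤
        D * ((1 + L ^ 2) * (T + Z)) := by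
      rw [mul_pow, e3]
      exact mul_le_mul_of_nonneg_left f2 hC0
    have f4 : 3 * p * Z ≤ 3 * p * (T + Z) := by
      have : 0 ≤ 3 * p := by linarith
      nlinarith
    have f5 : 2 * C * (k + 1) * (1 + L ^ 2) * s = 2 * D * (1 + L ^ 2) := by
      rw [hD]
      ring
    rw [f5]
    nlinarith
  · intro k n W hW
    exact ⟨fun κ hκ h => (std hW).strong_fibre hκ h,
      fun h => Pool.Agent.Q86.FIB.Std.even_mean h⟩

end Pool.Agent.Results.MP_6d896a_gt.TwoScale
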